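import Pool.Agent.H90.PhaseMuC

namespace Pool.Agent.Results.MP_0eb722_an.Exactness

open Pool.Agent.H90.PhaseMu

theorem result :
    (∀ (n : ℕ) (M : Mat n) (θ : ℝ), 1 ≤ n → 0 ≤ θ → θ ≤ Real.pi / 2 →
      (mu θ M = muHat θ M ↔
        (∀ y : E n, ‖y‖ = 1 → -inner ℂ y (op M y) ∉ sector θ) ∨
        ∃ x : E n, ‖x‖ = 1 ∧ Real.cos θ * ‖op M x‖ ≤ -(inner ℂ x (op M x)).re ∧
          ∀ y : E n, ‖y‖ = 1 → -inner ℂ y (op M y) ∈ sector θ → ‖op M y‖ ≤ ‖op M x‖)) ∧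
    (∀ (n : ℕ) (θ : ℝ), 2 ≤ n → 0 ≤ θ → θ < Real.pi / 2 → ∃ M : Mat n, mu θ M < muHat θ M) ∧
    (∀ (n : ℕ) (M : Mat n), 1 ≤ n → mu (Real.pi / 2) M = muHat (Real.pi / 2) M) := by
  refine ⟨fun n M θ _ h0 h1 => ?_, fun n θ hn h0 h1 => gap h0 h1 hn, fun n M _ => half M⟩
  simp only [mem_sector_iff h0 h1]
  exact characterisation h0 h1 M

end Pool.Agent.Results.MP_0eb722_an.Exactness
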